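import Mathlib
import Pool.Agent.helper81.RFKunen

/-!
The correct recursion for the finite levels of the well-founded part of the Rudin-Frolik order.
-/

set_option autoImplicit false

namespace Pool.Agent.Results.MP_e112c8_lc.LevelAdd

open Pool.Agent.helper81.RF

theorem result (m n : ℕ) :
    level ((m + n : ℕ) : Ordinal.{0}) =
      {v | ∃ (f : ℕ → Ultrafilter ℕ) (u : Ultrafilter ℕ), Function.Injective f ∧
        DiscreteTopology (Set.range f) ∧ u ∈ level (m : Ordinal.{0}) ∧
        (∀ i, f i ∈ level (n : Ordinal.{0})) ∧ v = ext f u} :=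
  level_add m n

end Pool.Agent.Results.MP_e112c8_lc.LevelAdd
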