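import Mathlib
import Pool.Agent.helper81.RFWeak

/-!
The posed formula for the successor levels of the well-founded part of the Rudin-Frolik order
holds exactly for `n = 1`; in particular the instance about discretely weak p-points is true and
the formula for all `n > 0` is false.
-/

set_option autoImplicit false

namespace Pool.Agent.Results.MP_e112c8_lc.LevelFormula

open Pool.Agent.helper81.RF

theorem result :
    (∀ n : ℕ, 0 < n →
      (level ((n + 1 : ℕ) : Ordinal.{0}) =
        {v | ∃ (f : ℕ → Ultrafilter ℕ) (u : Ultrafilter ℕ), Function.Injective f ∧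
          DiscreteTopology (Set.range f) ∧ u ∈ level (n : Ordinal.{0}) ∧
          (∀ i, f i ∈ level (n : Ordinal.{0})) ∧ v = ext f u} ↔ n = 1)) ∧
    (∀ (f : ℕ → Ultrafilter ℕ) (u : Ultrafilter ℕ), Function.Injective f →
      DiscreteTopology (Set.range f) → DiscretelyWeakPPoint u →
      (∀ i, DiscretelyWeakPPoint (f i)) → ext f u ∈ level 2) := by
  constructor
  · intro n hn
    rw [← level_add n n]
    constructor
    · intro h
      obtain ⟨u, hu⟩ := exists_lv (n + n)
      have h1 : u ∈ level ((n + 1 : ℕ) : Ordinal.{0}) := by
        rw [h]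
        exact mem_level_iff.2 hu
      have h2 := (mem_level_iff.1 h1).unique hu
      omega
    · rintro rfl
      rfl
  · intro f u hf hd hu hfu
    have h1 : Lv (1 + 1) (ext f u) := by
      refine lv_ext 1 1 u f (lv_one_of_dwpp hu) ((sd_of_discrete hf hd).aesd u) ?_
      exact Filter.mem_of_superset Filter.univ_mem (fun i _ => lv_one_of_dwpp (hfu i))
    have h2 := mem_level_iff.2 h1
    have h3 : ((1 + 1 : ℕ) : Ordinal.{0}) = 2 := by norm_num
    rwa [h3] at h2

end Pool.Agent.Results.MP_e112c8_lc.LevelFormula
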